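import Pool.Agent.H99.RogIns.Upper
import Pool.Agent.H99.RogIns.Lower

/-!
# The union of two overlapping translates of a convex disk is Rogerian

The Euclidean plane, packings, the density with respect to the discs `r B²`, `δ_T` and `δ_L` are
those of the problem file.
-/

set_option autoImplicit false
open MeasureTheory
open Pool.Agent.H99.RogIns

namespace Pool.Agent.Results.MP_d76e1b_co.TwoTranslates

universe u

/-- the Euclidean plane -/
abbrev Plane : Type := EuclideanSpace ℝ (Fin 2)

/-- a convex disk: a compact convex set with nonempty interior -/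
def IsConvexDisk (K : Set Plane) : Prop :=
  Convex ℝ K ∧ IsCompact K ∧ (interior K).Nonempty

/-- the translate `D + t` -/
def translate (D : Set Plane) (t : Plane) : Set Plane := (fun x => x + t) '' D

/-- the family `D + t i` is a translative packing: the interiors of its members are pairwise
disjoint -/
def IsPacking (D : Set Plane) {ι : Type u} (t : ι → Plane) : Prop :=
  ∀ i j : ι, i ≠ j → Disjoint (interior (translate D (t i))) (interior (translate D (t j)))

/-- the upper density of the family `D + t i`: the upper limit, for `r → ∞`, of the sum of the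
areas of the members contained in the closed disc of radius `r` about the origin, divided by
`π r²` -/
noncomputable def density (D : Set Plane) {ι : Type u} (t : ι → Plane) : ENNReal :=
  Filter.limsup (fun r : ℝ =>
    (∑' i : {i : ι // translate D (t i) ⊆ Metric.closedBall 0 r}, volume (translate D (t i))) /
      ENNReal.ofReal (Real.pi * r ^ 2)) Filter.atTop

/-- `δ_T(D)`: the supremum of the densities of the translative packings of `D`, over all index
types of the universe `Type u` -/
noncomputable def deltaT (D : Set Plane) : ENNReal :=
  ⨆ (ι : Type u) (t : ι → Plane) (_ : IsPacking D t), density D t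

/-- a lattice: a discrete subgroup of the plane which spans the plane -/
def IsLattice (Λ : AddSubgroup Plane) : Prop :=
  DiscreteTopology Λ ∧ Submodule.span ℝ (Λ : Set Plane) = ⊤

/-- `δ_L(D)`: the supremum of the densities of the lattice packings of `D` -/
noncomputable def deltaL (D : Set Plane) : ENNReal :=
  ⨆ (Λ : AddSubgroup Plane) (_ : IsLattice Λ) (_ : IsPacking D (fun t : Λ => (t : Plane))),
    density D (fun t : Λ => (t : Plane))

theorem latB_le_deltaL (D : Set Plane) (hD : IsCompact D) : latB (phi '' D) ≤ deltaL D := by
  unfold latB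
  refine iSup_le fun u' => iSup_le fun w' => iSup_le fun h => ?_
  obtain ⟨hdet, hpack⟩ := h
  obtain ⟨u₀, rfl⟩ := phi.surjective u'
  obtain ⟨w₀, rfl⟩ := phi.surjective w'
  obtain ⟨Λ, hdisc, hspan, hΛ, hco⟩ := exists_lattice u₀ w₀ hdet
  have hp : IsPacking D (fun t : Λ => (t : Plane)) := by
    intro i j hij
    obtain ⟨a, b, hi⟩ := (hΛ _).1 i.2
    obtain ⟨c, d, hj⟩ := (hΛ _).1 j.2
    have hne : (a, b) ≠ (c, d) := by
      intro h
      apply hij
      apply Subtype.ext
      rw [Prod.mk.injEq] at h
      rw [hi, hj, h.1, h.2]
    have h1 := hpack a b c d hne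
    have e1 : (a : ℝ) • phi u₀ + (b : ℝ) • phi w₀ = phi (i : Plane) := by
      rw [hi, map_add, map_smul, map_smul]
    have e2 : (c : ℝ) • phi u₀ + (d : ℝ) • phi w₀ = phi (j : Plane) := by
      rw [hj, map_add, map_smul, map_smul]
    rw [e1, e2, disjoint_iff] at h1
    exact h1
  have h2 := lower D hD u₀ w₀ hdet Λ hΛ hco
  rw [vol_phi]
  refine h2.trans ?_
  unfold deltaL
  exact le_iSup_of_le Λ (le_iSup_of_le ⟨hdisc, hspan⟩ (le_iSup_of_le hp le_rfl))

theorem density_le (K : Set Plane) (v : Plane) (hK : IsConvexDisk K)
    (hv : (K ∩ translate K v).Nonempty) {ι : Type u} (t : ι → Plane)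
    (ht : IsPacking (K ∪ translate K v) t) :
    density (K ∪ translate K v) t ≤ deltaL (K ∪ translate K v) := by
  obtain ⟨hconv, hcomp, hint⟩ := hK
  set D := K ∪ translate K v with hD
  have hDc : IsCompact D := hcomp.union (hcomp.image (by fun_prop))
  have hDint : (interior D).Nonempty := hint.mono (interior_mono Set.subset_union_left)
  have hD' : phi '' D = phi '' K ∪ (fun x => x + phi v) '' (phi '' K) := by
    rw [hD, Set.image_union]
    unfold translate
    rw [image_phi_translate]
  refine le_trans ?_ (latB_le_deltaL D hDc)
  by_cases htop : latB (phi '' D) = ⊤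
  · rw [htop]
    exact le_top
  have hv' : (phi '' K ∩ ((fun x => x + phi v) '' (phi '' K))).Nonempty := by
    rw [← image_phi_translate, ← Set.image_inter phi.injective]
    exact hv.image phi
  obtain ⟨e, w, Δ, c, hdet, hΔ, hc, hval, hloc⟩ := local_bound (phi '' K) (phi v)
    (hconv.linear_image phi.toLinearMap) (hcomp.image phi.continuous)
    (by rw [interior_phi]; exact hint.image phi) hv' (by rw [← hD']; exact htop)
  rw [← hD'] at hval hloc
  rw [← hval, vol_phi]
  exact upper D hDc hDint e w Δ c hdet hΔ hc hloc t ht

/-- For every convex disk `K` of the Euclidean plane and every vector `v` such that `K` and `K + v`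
have a common point, the set `D = K ∪ (K + v)` satisfies `δ_T(D) = δ_L(D)`. -/
theorem result (K : Set Plane) (v : Plane) (hK : IsConvexDisk K)
    (hv : (K ∩ translate K v).Nonempty) :
    deltaT.{u} (K ∪ translate K v) = deltaL (K ∪ translate K v) := by
  refine le_antisymm ?_ ?_
  · unfold deltaT
    exact iSup_le fun ι => iSup_le fun t => iSup_le fun ht => density_le K v hK hv t ht
  · unfold deltaL deltaT
    refine iSup_le fun Λ => iSup_le fun _ => iSup_le fun hp => ?_
    refine le_iSup_of_le (ULift.{u} Λ) (le_iSup_of_le (fun t => ((t.down : Λ) : Plane))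
      (le_iSup_of_le ?_ ?_))
    · intro i j hij
      exact hp i.down j.down (fun h => hij (ULift.down_injective h))
    · unfold density
      refine le_of_eq ?_
      congr 1
      funext r
      congr 1
      exact (Equiv.tsum_eq (Equiv.subtypeEquiv (Equiv.ulift.{u} (α := Λ)) (fun _ => Iff.rfl))
        (fun i : {i : Λ // translate (K ∪ translate K v) ((i : Λ) : Plane) ⊆
          Metric.closedBall 0 r} => volume (translate (K ∪ translate K v) ((i : Λ) : Plane)))).symm

end Pool.Agent.Results.MP_d76e1b_co.TwoTranslates
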